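import Pool.Agent.MP_0d4ca0_al.Tables

/-! Kernel computations on the tables. -/

set_option autoImplicit false

namespace Pool.Agent.MP_0d4ca0_al

lemma chkL : (allLt 128 fun a => allLt 128 fun c => Nat.beq (mulN a (tb2 tL a c)) c) = true := by
  decide +kernel

lemma chkR : (allLt 128 fun b => allLt 128 fun c => Nat.beq (mulN (tb2 tR b c) b) c) = true := by
  decide +kernel

lemma chkE : (allLt 128 fun x => Nat.beq (mulN 0 x) x && Nat.beq (mulN x 0) x) = true := by
  decide +kernel

lemma chkI : (allLt 5 fun j => allLt 128 fun x => Nat.beq (tb2 tI j (tb2 tC j x)) x) = true := by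
  decide +kernel

lemma chkD : (allLt 128 fun a => allLt 128 fun b =>
    (Nat.beq a 0 && (Nat.beq b (rep 0) || Nat.beq b (rep 1) || Nat.beq b (rep 2) || Nat.beq b (rep 3))) ||
    (Nat.blt (tb2 tG a b) 5 &&
      Nat.blt (tb2 tD (tb2 tA (tb2 tG a b) a) (tb2 tB (tb2 tG a b) b)) (tb2 tD a b))) = true := by
  decide +kernel

lemma chkK : (allLt 4 fun r => allLt 128 fun v =>
    Nat.blt (tb2 tK r v) 48 && Nat.beq (mulN (tb2 tX r v) (rep r)) v &&
    Nat.beq (tb2 tA (tb2 tK r v) 0) 0 && Nat.beq (tb2 tB (tb2 tK r v) (rep r)) (rep r) &&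
    allLt 128 fun q =>
      Nat.beq (mulN (tb2 tX r v) (tb2 tB (tb2 tK r v) q)) (mulN (tb2 tX r q) v)) = true := by
  decide +kernel

lemma chkA0 : (allLt 12 fun k => checkAtp k) = true := by decide +kernel
lemma chkA1 : (allLt 12 fun k => checkAtp (Nat.add k 12)) = true := by decide +kernel
lemma chkA2 : (allLt 12 fun k => checkAtp (Nat.add k 24)) = true := by decide +kernel
lemma chkA3 : (allLt 12 fun k => checkAtp (Nat.add k 36)) = true := by decide +kernel

lemma chkN : mulN 16 64 = 85 ∧ mulN 16 17 = 0 ∧ mulN 64 106 = 0 ∧ mulN 85 123 = 0 ∧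
    mulN 106 17 = 122 := by decide +kernel

end Pool.Agent.MP_0d4ca0_al
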