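import Mathlib

set_option autoImplicit false

namespace Pool.Agent.MP_0d4ca0_al

/-- `(Q, mul)` is a loop with identity element `e`. -/
def IsLoop {Q : Type} (mul : Q → Q → Q) (e : Q) : Prop :=
  (∀ x, mul e x = x ∧ mul x e = x) ∧ (∀ a b, ∃! x, mul a x = b) ∧ (∀ a b, ∃! y, mul y a = b)

/-- Property (T): for each `x` the map sending `y` to the solution `t` of `x t = y x`
is an automorphism. -/
def PropT {Q : Type} (mul : Q → Q → Q) : Prop :=
  ∀ x, ∃ T : Q ≃ Q, (∀ y, mul x (T y) = mul y x) ∧ ∀ y z, T (mul y z) = mul (T y) (T z)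

/-- `(G, op)` is an isotope of `(Q, mul)`. -/
def IsIsotope {G Q : Type} (op : G → G → G) (mul : Q → Q → Q) : Prop :=
  ∃ α β γ : G ≃ Q, ∀ u v, γ (op u v) = mul (α u) (β v)

/-- The antiautomorphic inverse property. -/
def AAIP {Q : Type} (mul : Q → Q → Q) (e : Q) : Prop :=
  ∃ inv : Q → Q, (∀ x, mul x (inv x) = e ∧ mul (inv x) x = e) ∧
    ∀ x y, inv (mul x y) = mul (inv y) (inv x)

end Pool.Agent.MP_0d4ca0_al
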