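import Pool.Agent.MP_0d4ca0_al.Defs
import Pool.Agent.MP_0d4ca0_al.Checks

set_option autoImplicit false

namespace Pool.Agent.MP_0d4ca0_al

def fin2 (T : ℕ) (i : ℕ) (j : Fin 128) : Fin 128 := ⟨tb2 T i j, tb2_lt _ _ _⟩

def mulQ (p q : Fin 128) : Fin 128 := fin2 tM p q

lemma mulQ_val (p q : Fin 128) : (mulQ p q).val = mulN p q := rfl

lemma left_surj (a : Fin 128) : Function.Surjective (mulQ a) := by
  intro c
  refine ⟨fin2 tL a c, Fin.ext ?_⟩
  exact Nat.eq_of_beq_eq_true (allLt_spec (allLt_spec chkL a a.isLt) c c.isLt)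

lemma right_surj (b : Fin 128) : Function.Surjective (fun y => mulQ y b) := by
  intro c
  refine ⟨fin2 tR b c, Fin.ext ?_⟩
  exact Nat.eq_of_beq_eq_true (allLt_spec (allLt_spec chkR b b.isLt) c c.isLt)

lemma left_inj (a : Fin 128) : Function.Injective (mulQ a) :=
  Finite.injective_iff_surjective.2 (left_surj a)

lemma right_inj (b : Fin 128) : Function.Injective (fun y => mulQ y b) :=
  Finite.injective_iff_surjective.2 (right_surj b)

lemma unit (x : Fin 128) : mulQ 0 x = x ∧ mulQ x 0 = x := by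
  have h := allLt_spec chkE x x.isLt
  rw [Bool.and_eq_true] at h
  exact ⟨Fin.ext (Nat.eq_of_beq_eq_true h.1), Fin.ext (Nat.eq_of_beq_eq_true h.2)⟩

lemma isLoop : IsLoop mulQ 0 :=
  ⟨unit, fun a b => (Function.bijective_iff_existsUnique _).1 ⟨left_inj a, left_surj a⟩ b,
    fun a b => (Function.bijective_iff_existsUnique _).1 ⟨right_inj a, right_surj a⟩ b⟩

lemma atp (k : ℕ) (hk : k < 48) (p q : Fin 128) :
    mulQ (fin2 tA k p) (fin2 tB k q) = fin2 tC k (mulQ p q) := by
  have h : checkAtp k = true := by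
    by_cases h1 : k < 12
    · exact allLt_spec chkA0 k h1
    by_cases h2 : k < 24
    · have := allLt_spec chkA1 (k - 12) (by omega)
      rwa [show Nat.add (k - 12) 12 = k by simp; omega] at this
    by_cases h3 : k < 36
    · have := allLt_spec chkA2 (k - 24) (by omega)
      rwa [show Nat.add (k - 24) 24 = k by simp; omega] at this
    · have := allLt_spec chkA3 (k - 36) (by omega)
      rwa [show Nat.add (k - 36) 36 = k by simp; omega] at this
  exact Fin.ext (Nat.eq_of_beq_eq_true (allLt_spec (allLt_spec h p p.isLt) q q.isLt))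

/-- the multiplicativity of the middle inner maps in every loop mapped homotopically into `Q`
with the identity going to the point `(a, b)` -/
def U (a b : Fin 128) : Prop :=
  ∀ (G : Type) (op : G → G → G) (e : G), (∀ x, op e x = x ∧ op x e = x) →
    ∀ α β γ : G → Fin 128, Function.Injective γ → (∀ u v, γ (op u v) = mulQ (α u) (β v)) →
      α e = a → β e = b →
      ∀ (x : G) (T : G → G), (∀ y, op x (T y) = op y x) → ∀ y z, T (op y z) = op (T y) (T z)

lemma U_of_atp (j : ℕ) (hj : j < 5) (a b : Fin 128) (h : U (fin2 tA j a) (fin2 tB j b)) :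
    U a b := by
  intro G op e he α β γ hγ hom ha hb
  refine h G op e he (fun u => fin2 tA j (α u)) (fun u => fin2 tB j (β u))
    (fun u => fin2 tC j (γ u)) ?_ ?_ (by rw [ha]) (by rw [hb])
  · have hC : Function.LeftInverse (fin2 tI j) (fin2 tC j) := fun x =>
      Fin.ext (Nat.eq_of_beq_eq_true (allLt_spec (allLt_spec chkI j hj) x x.isLt))
    exact hC.injective.comp hγ
  · intro u v
    rw [atp j (by omega), hom]

lemma U_rep (r : ℕ) (hr : r < 4) (b : Fin 128) (hb : b.val = rep r) : U 0 b := by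
  intro G op e he α β γ hγ hom ha hb' x T hT
  have key : ∀ v : Fin 128, tb2 tK r v < 48 ∧ mulQ (fin2 tX r v) b = v ∧
      fin2 tA (tb2 tK r v) 0 = 0 ∧ fin2 tB (tb2 tK r v) b = b ∧
      ∀ q, mulQ (fin2 tX r v) (fin2 tB (tb2 tK r v) q) = mulQ (fin2 tX r q) v := by
    intro v
    have h := allLt_spec (allLt_spec chkK r hr) v v.isLt
    simp only [Bool.and_eq_true] at h
    obtain ⟨⟨⟨⟨h1, h2⟩, h3⟩, h4⟩, h5⟩ := h
    rw [← hb] at h2 h4
    refine ⟨Nat.blt_eq.mp h1, Fin.ext (Nat.eq_of_beq_eq_true h2),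
      Fin.ext (Nat.eq_of_beq_eq_true h3), Fin.ext (Nat.eq_of_beq_eq_true h4), fun q => ?_⟩
    exact Fin.ext (Nat.eq_of_beq_eq_true (allLt_spec h5 q q.isLt))
  have hβ : ∀ y, γ y = β y := fun y => by
    have := hom e y
    rwa [(he y).1, ha, (unit _).1] at this
  have hα : ∀ y, γ y = mulQ (α y) b := fun y => by
    have := hom y e
    rwa [(he y).2, hb'] at this
  have hX : ∀ y, α y = fin2 tX r (β y) := fun y => by
    apply right_inj b
    show mulQ (α y) b = mulQ (fin2 tX r (β y)) b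
    rw [(key _).2.1, ← hα, hβ]
  obtain ⟨k1, -, k3, k4, k5⟩ := key (β x)
  set k := tb2 tK r (β x) with hk
  have hTβ : ∀ y, β (T y) = fin2 tB k (β y) := fun y => by
    apply left_inj (α x)
    rw [← hom, hT, hom, hX x, k5, ← hX y]
  have hTγ : ∀ y, γ (T y) = fin2 tC k (γ y) := fun y => by
    rw [hβ, hTβ, hβ, ← (unit (fin2 tB k (β y))).1, ← k3, atp k k1, (unit _).1]
  have hTα : ∀ y, α (T y) = fin2 tA k (α y) := fun y => by
    apply right_inj b
    show mulQ (α (T y)) b = mulQ (fin2 tA k (α y)) b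
    rw [← hα, hTγ, hα, ← atp k k1, k4]
  intro y z
  apply hγ
  rw [hTγ, hom, hom, hTα, hTβ, atp k k1]

lemma U_all (a b : Fin 128) : U a b := by
  suffices h : ∀ d : ℕ, ∀ a b : Fin 128, tb2 tD a b = d → U a b from h _ a b rfl
  intro d
  induction d using Nat.strong_induction_on with
  | _ d ih =>
    intro a b hd
    have h := allLt_spec (allLt_spec chkD a a.isLt) b b.isLt
    simp only [Bool.or_eq_true, Bool.and_eq_true] at h
    rcases h with ⟨h1, h2⟩ | ⟨h1, h2⟩
    · have ha : a = 0 := Fin.ext (Nat.eq_of_beq_eq_true h1)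
      subst ha
      rcases h2 with ((h2 | h2) | h2) | h2
      · exact U_rep 0 (by norm_num) b (Nat.eq_of_beq_eq_true h2)
      · exact U_rep 1 (by norm_num) b (Nat.eq_of_beq_eq_true h2)
      · exact U_rep 2 (by norm_num) b (Nat.eq_of_beq_eq_true h2)
      · exact U_rep 3 (by norm_num) b (Nat.eq_of_beq_eq_true h2)
    · refine U_of_atp _ (Nat.blt_eq.mp h1) a b (ih _ ?_ _ _ rfl)
      rw [← hd]
      exact Nat.blt_eq.mp h2

lemma universal (G : Type) (op : G → G → G) (e : G) (hG : IsLoop op e)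
    (hiso : IsIsotope op mulQ) : PropT op := by
  obtain ⟨α, β, γ, hom⟩ := hiso
  intro x
  have hl : Function.Bijective (op x) :=
    (Function.bijective_iff_existsUnique _).2 (hG.2.1 x)
  have hr : Function.Bijective (fun y => op y x) :=
    (Function.bijective_iff_existsUnique _).2 (hG.2.2 x)
  let T : G ≃ G := (Equiv.ofBijective _ hr).trans (Equiv.ofBijective _ hl).symm
  have hT : ∀ y, op x (T y) = op y x := fun y =>
    (Equiv.ofBijective _ hl).apply_symm_apply (op y x)
  exact ⟨T, hT, U_all (α e) (β e) G op e hG.1 α β γ γ.injective hom rfl rfl x T hT⟩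

lemma not_aaip : ¬ AAIP mulQ 0 := by
  rintro ⟨inv, h1, h2⟩
  obtain ⟨n1, n2, n3, n4, n5⟩ := chkN
  have m1 : mulQ 16 64 = 85 := Fin.ext n1
  have m2 : mulQ 16 17 = 0 := Fin.ext n2
  have m3 : mulQ 64 106 = 0 := Fin.ext n3
  have m4 : mulQ 85 123 = 0 := Fin.ext n4
  have m5 : mulQ 106 17 = 122 := Fin.ext n5
  have i1 : inv 16 = 17 := left_inj 16 (by rw [(h1 _).1, m2])
  have i2 : inv 64 = 106 := left_inj 64 (by rw [(h1 _).1, m3])
  have i3 : inv 85 = 123 := left_inj 85 (by rw [(h1 _).1, m4])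
  have := h2 16 64
  rw [m1, i1, i2, i3, m5] at this
  exact absurd this (by decide)

theorem main : ∃ (mul : Fin 128 → Fin 128 → Fin 128) (e : Fin 128), IsLoop mul e ∧
    (∀ (G : Type) (op : G → G → G) (e' : G), IsLoop op e' → IsIsotope op mul → PropT op) ∧
    ¬ AAIP mul e :=
  ⟨mulQ, 0, isLoop, universal, not_aaip⟩

end Pool.Agent.MP_0d4ca0_al
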